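import Pool.Agent.H24.RSM.Stmts

/-!
# MASA: a Hermitian matrix with central commutant inside the commutant of `G`
-/

open Matrix
open scoped ComplexOrder

namespace Pool.Agent.H4.RSM

variable {n : ℕ}

/-- The commutant of `A` as a linear subspace. -/
noncomputable def comm (A : Matrix (Fin n) (Fin n) ℂ) :
    Submodule ℂ (Matrix (Fin n) (Fin n) ℂ) where
  carrier := {X | Commute X A}
  add_mem' := fun hX hY => Commute.add_left hX hY
  zero_mem' := Commute.zero_left A
  smul_mem' := fun c X hX => Commute.smul_left (hX : Commute X A) c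

theorem mem_comm {A X : Matrix (Fin n) (Fin n) ℂ} : X ∈ comm A ↔ Commute X A := Iff.rfl

theorem trace_move (V B X : Matrix (Fin n) (Fin n) ℂ) :
    trace (V * (B * X - X * B)) = trace ((V * B - B * V) * X) := by
  rw [mul_sub, sub_mul, trace_sub, trace_sub, Matrix.mul_assoc]
  congr 1
  rw [← Matrix.mul_assoc, trace_mul_comm, ← Matrix.mul_assoc]

theorem exists_good (A B : Matrix (Fin n) (Fin n) ℂ) (hA : A.IsHermitian) (hB : B.IsHermitian)
    (hAB : Commute A B) :
    ∃ m : ℕ, 1 ≤ m ∧ ∀ X, Commute X (A + (m : ℂ) • B) → Commute X B := by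
  by_contra hcon
  push Not at hcon
  choose! Y hY using fun m : ℕ => fun (h : 1 ≤ m) => hcon m h
  -- the family `V m = [B, X m]`
  set X : ℕ → Matrix (Fin n) (Fin n) ℂ := fun m => Y (m + 1) with hXdef
  have hXc : ∀ m, Commute (X m) (A + ((m + 1 : ℕ) : ℂ) • B) := fun m => (hY (m + 1) (by omega)).1
  have hXn : ∀ m, ¬ Commute (X m) B := fun m => (hY (m + 1) (by omega)).2
  set V : ℕ → Matrix (Fin n) (Fin n) ℂ := fun m => B * X m - X m * B with hVdef
  have hV0 : ∀ m, V m ≠ 0 := fun m h => hXn m (sub_eq_zero.1 h).symm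
  have hCB : ∀ c : ℂ, Commute B (A + c • B) := fun c =>
    (Commute.add_right hAB.symm ((Commute.refl B).smul_right c))
  have hVc : ∀ m, Commute (V m) (A + ((m + 1 : ℕ) : ℂ) • B) := fun m =>
    Commute.sub_left (Commute.mul_left (hCB _) (hXc m)) (Commute.mul_left (hXc m) (hCB _))
  have hCH : ∀ m : ℕ, (A + (m : ℂ) • B).IsHermitian := by
    intro m
    refine hA.add ?_
    unfold Matrix.IsHermitian
    rw [conjTranspose_smul, hB.eq]
    simp
  have hVs : ∀ m, Commute (V m)ᴴ (A + ((m + 1 : ℕ) : ℂ) • B) := by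
    intro m
    have h := congrArg conjTranspose (hVc m).eq
    rw [conjTranspose_mul, conjTranspose_mul, (hCH (m + 1)).eq] at h
    exact h.symm
  have horth : ∀ i j, i ≠ j → trace ((V i)ᴴ * V j) = 0 := by
    intro i j hij
    have h1 : trace ((V i)ᴴ * V j) = trace (((V i)ᴴ * B - B * (V i)ᴴ) * X j) :=
      trace_move _ _ _
    have h2 : trace ((V i)ᴴ * ((A + ((j + 1 : ℕ) : ℂ) • B) * X j -
        X j * (A + ((j + 1 : ℕ) : ℂ) • B))) =
        trace (((V i)ᴴ * (A + ((j + 1 : ℕ) : ℂ) • B) - (A + ((j + 1 : ℕ) : ℂ) • B) * (V i)ᴴ) *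
          X j) := trace_move _ _ _
    have h3 : (A + ((j + 1 : ℕ) : ℂ) • B) * X j - X j * (A + ((j + 1 : ℕ) : ℂ) • B) = 0 :=
      sub_eq_zero.2 (hXc j).eq.symm
    rw [h3, mul_zero, trace_zero] at h2
    have h4 : (V i)ᴴ * (A + ((j + 1 : ℕ) : ℂ) • B) - (A + ((j + 1 : ℕ) : ℂ) • B) * (V i)ᴴ =
        (((j : ℂ) - (i : ℂ))) • ((V i)ᴴ * B - B * (V i)ᴴ) := by
      have h5 := (hVs i).eq
      have h6 : (V i)ᴴ * A - A * (V i)ᴴ =
          -(((i + 1 : ℕ) : ℂ) • ((V i)ᴴ * B - B * (V i)ᴴ)) := by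
        rw [mul_add, add_mul, mul_smul_comm, smul_mul_assoc] at h5
        rw [smul_sub, neg_sub]
        rw [sub_eq_sub_iff_add_eq_add]
        rw [add_comm (((i + 1 : ℕ) : ℂ) • (B * (V i)ᴴ))]
        exact h5
      rw [mul_add, add_mul, mul_smul_comm, smul_mul_assoc, add_sub_add_comm, h6, ← smul_sub,
        ← neg_smul, ← add_smul]
      congr 1
      push_cast
      ring
    rw [h4, smul_mul_assoc, trace_smul, smul_eq_mul] at h2
    have h7 : ((j : ℂ) - (i : ℂ)) ≠ 0 := by
      rw [sub_ne_zero]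
      exact fun h => hij (Nat.cast_injective h).symm
    rw [h1]
    exact (mul_eq_zero.1 h2.symm).resolve_left h7
  have hli : LinearIndependent ℂ V := by
    rw [linearIndependent_iff']
    intro s g hg i hi
    have h1 : trace ((V i)ᴴ * ∑ j ∈ s, g j • V j) = 0 := by rw [hg, mul_zero, trace_zero]
    rw [Finset.mul_sum, trace_sum, Finset.sum_eq_single i] at h1
    · rw [mul_smul_comm, trace_smul, smul_eq_mul] at h1
      refine (mul_eq_zero.1 h1).resolve_right fun h => hV0 i ?_
      exact Matrix.trace_conjTranspose_mul_self_eq_zero_iff.1 h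
    · intro j _ hj
      rw [mul_smul_comm, trace_smul, horth i j (Ne.symm hj), smul_zero]
    · intro h
      exact absurd hi h
  exact Module.Finite.not_linearIndependent_of_infinite V hli

theorem herm_case (A B : Matrix (Fin n) (Fin n) ℂ) (P : Matrix (Fin n) (Fin n) ℂ → Prop)
    (hmin : ∀ C, P C → Module.finrank ℂ (comm A) ≤ Module.finrank ℂ (comm C))
    (hP : ∀ m : ℕ, P (A + (m : ℂ) • B)) (hA : A.IsHermitian) (hB : B.IsHermitian)
    (hAB : Commute A B) : ∀ X, Commute X A → Commute X B := by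
  obtain ⟨m, hm, h⟩ := exists_good A B hA hB hAB
  have hle : comm (A + (m : ℂ) • B) ≤ comm A := by
    intro X hX
    have h1 : Commute X B := h X hX
    have h2 : Commute X (A + (m : ℂ) • B - (m : ℂ) • B) :=
      Commute.sub_right hX (h1.smul_right _)
    rw [add_sub_cancel_right] at h2
    exact h2
  have heq := Submodule.eq_of_le_of_finrank_le hle (hmin _ (hP m))
  intro X hX
  have h1 : X ∈ comm (A + (m : ℂ) • B) := by rw [heq]; exact hX
  exact h X h1

theorem masa : Pool.Agent.H24.RSM.MasaStmt := by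
  classical
  intro n G
  set P : Matrix (Fin n) (Fin n) ℂ → Prop := fun A =>
    A.IsHermitian ∧ ∀ g ∈ G, Commute (g : Matrix (Fin n) (Fin n) ℂ) A with hPdef
  have hne : ∃ k, ∃ A, P A ∧ Module.finrank ℂ (comm A) = k :=
    ⟨_, 0, ⟨Matrix.isHermitian_zero, fun g _ => Commute.zero_right _⟩, rfl⟩
  obtain ⟨A, hPA, hAk⟩ := Nat.find_spec hne
  have hmin : ∀ C, P C → Module.finrank ℂ (comm A) ≤ Module.finrank ℂ (comm C) := by
    intro C hC
    rw [hAk]
    exact Nat.find_min' hne ⟨C, hC, rfl⟩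
  refine ⟨A, hPA.1, hPA.2, ?_⟩
  -- Hermitian elements
  have key : ∀ B : Matrix (Fin n) (Fin n) ℂ, B.IsHermitian →
      (∀ g ∈ G, Commute (g : Matrix (Fin n) (Fin n) ℂ) B) → Commute A B →
      ∀ X, Commute X A → Commute X B := by
    intro B hB hBG hAB
    refine herm_case A B P hmin (fun m => ⟨?_, fun g hg => ?_⟩) hPA.1 hB hAB
    · refine hPA.1.add ?_
      unfold Matrix.IsHermitian
      rw [conjTranspose_smul, hB.eq]
      simp
    · exact Commute.add_right (hPA.2 g hg) ((hBG g hg).smul_right _)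
  intro T hTG hTA X hX
  have hTsA : Commute Tᴴ A := by
    have h := congrArg conjTranspose hTA.eq
    rw [conjTranspose_mul, conjTranspose_mul, hPA.1.eq] at h
    exact h.symm
  have hTsG : ∀ g ∈ G, Commute Tᴴ (g : Matrix (Fin n) (Fin n) ℂ) := by
    intro g hg
    have h := congrArg conjTranspose (hTG g⁻¹ (G.inv_mem hg)).eq
    rw [conjTranspose_mul, conjTranspose_mul] at h
    have h2 : ((g⁻¹ : Matrix.unitaryGroup (Fin n) ℂ) : Matrix (Fin n) (Fin n) ℂ)ᴴ =
        (g : Matrix (Fin n) (Fin n) ℂ) := by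
      rw [Matrix.UnitaryGroup.inv_val]
      exact star_star _
    rw [h2] at h
    exact h.symm
  -- real and imaginary parts
  have hR : Commute X (T + Tᴴ) := by
    refine key _ ?_ ?_ ?_ X hX
    · unfold Matrix.IsHermitian
      rw [conjTranspose_add, conjTranspose_conjTranspose, add_comm]
    · exact fun g hg => Commute.add_right (hTG g hg).symm (hTsG g hg).symm
    · exact Commute.add_right hTA.symm hTsA.symm
  have hI : Commute X (Complex.I • (T - Tᴴ)) := by
    refine key _ ?_ ?_ ?_ X hX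
    · unfold Matrix.IsHermitian
      rw [conjTranspose_smul, conjTranspose_sub, conjTranspose_conjTranspose]
      simp only [RCLike.star_def, Complex.conj_I]
      rw [neg_smul, ← smul_neg, neg_sub]
    · exact fun g hg => (Commute.sub_right (hTG g hg).symm (hTsG g hg).symm).smul_right _
    · exact (Commute.sub_right hTA.symm hTsA.symm).smul_right _
  have hI2 : Commute X (T - Tᴴ) := by
    have h := hI.smul_right (-Complex.I)
    rw [smul_smul] at h
    simpa using h
  have h2 : Commute X ((2 : ℂ)⁻¹ • ((T + Tᴴ) + (T - Tᴴ))) :=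
    (Commute.add_right hR hI2).smul_right _
  have h3 : (2 : ℂ)⁻¹ • ((T + Tᴴ) + (T - Tᴴ)) = T := by
    have : (T + Tᴴ) + (T - Tᴴ) = (2 : ℂ) • T := by
      rw [two_smul]; abel
    rw [this, smul_smul]
    norm_num
  rw [h3] at h2
  exact h2.symm

end Pool.Agent.H4.RSM
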