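import Pool.Agent.H24.RSM.Stmts

/-!
# NOE: the orbits of a finite group are separated by invariants of degree at most its order
-/

open MvPolynomial

namespace Pool.Agent.H4.RSM

open Pool.Agent.H24.RSM

variable {n : ℕ}

/-- The linear form `z ↦ ⟪w, g z⟫`. -/
noncomputable def lin (w : E n) (g : Matrix.unitaryGroup (Fin n) ℂ) : MvPolynomial (Fin n) ℂ :=
  ∑ i, ∑ j, C ((starRingEnd ℂ) (w i) * (g : Matrix (Fin n) (Fin n) ℂ) i j) * X j

theorem lin_degree (w : E n) (g : Matrix.unitaryGroup (Fin n) ℂ) :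
    (lin w g).totalDegree ≤ 1 := by
  unfold lin
  refine (totalDegree_finsetSum _ _).trans (Finset.sup_le fun i _ => ?_)
  refine (totalDegree_finsetSum _ _).trans (Finset.sup_le fun j _ => ?_)
  refine (totalDegree_mul _ _).trans ?_
  rw [totalDegree_C, totalDegree_X]

theorem act_apply (g : Matrix.unitaryGroup (Fin n) ℂ) (z : E n) (i : Fin n) :
    (act g z) i = ∑ j, (g : Matrix (Fin n) (Fin n) ℂ) i j * z j := by
  simp [act, Matrix.mulVec, dotProduct]

theorem ev_lin (w : E n) (g : Matrix.unitaryGroup (Fin n) ℂ) (z : E n) :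
    ev z (lin w g) = inner ℂ w (act g z) := by
  unfold ev lin
  rw [PiLp.inner_apply]
  simp only [map_sum, map_mul, eval_C, eval_X, RCLike.inner_apply', act_apply, Finset.mul_sum]
  refine Finset.sum_congr rfl fun i _ => Finset.sum_congr rfl fun j _ => ?_
  ring

theorem act_mul (g h : Matrix.unitaryGroup (Fin n) ℂ) (z : E n) :
    act (g * h) z = act g (act h z) := by
  ext i
  rw [act_apply, act_apply]
  simp only [act_apply, Finset.mul_sum]
  rw [Finset.sum_comm]
  refine Finset.sum_congr rfl fun j _ => ?_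
  rw [Matrix.UnitaryGroup.mul_val, Matrix.mul_apply, Finset.sum_mul]
  refine Finset.sum_congr rfl fun k _ => ?_
  ring

/-- The invariant polynomial `z ↦ ∏_g (c - ⟪w, g z⟫)`. -/
noncomputable def pol (G : Subgroup (Matrix.unitaryGroup (Fin n) ℂ)) [Fintype G] (w : E n)
    (c : ℂ) : MvPolynomial (Fin n) ℂ :=
  ∏ g : G, (C c - lin w (g : Matrix.unitaryGroup (Fin n) ℂ))

theorem pol_degree (G : Subgroup (Matrix.unitaryGroup (Fin n) ℂ)) [Fintype G] (w : E n)
    (c : ℂ) : (pol G w c).totalDegree ≤ Nat.card G := by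
  unfold pol
  refine (totalDegree_finsetProd _ _).trans ?_
  refine (Finset.sum_le_sum (g := fun _ => 1) fun g _ => ?_).trans ?_
  · refine (totalDegree_sub _ _).trans (max_le ?_ (lin_degree w _))
    rw [totalDegree_C]
    exact Nat.zero_le _
  · rw [Nat.card_eq_fintype_card]
    simp

theorem ev_pol (G : Subgroup (Matrix.unitaryGroup (Fin n) ℂ)) [Fintype G] (w : E n)
    (c : ℂ) (z : E n) :
    ev z (pol G w c) = ∏ g : G, (c - inner ℂ w (act (g : Matrix.unitaryGroup (Fin n) ℂ) z)) := by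
  unfold pol
  have : ev z (∏ g : G, (C c - lin w (g : Matrix.unitaryGroup (Fin n) ℂ))) =
      ∏ g : G, ev z (C c - lin w (g : Matrix.unitaryGroup (Fin n) ℂ)) := by
    unfold ev
    rw [map_prod]
  rw [this]
  refine Finset.prod_congr rfl fun g _ => ?_
  rw [← ev_lin]
  unfold ev
  rw [map_sub, eval_C]

theorem noe : NoeStmt := by
  intro n G hfin U hU
  classical
  have : Fintype G := Fintype.ofFinite G
  -- step 1
  have h1 : ∀ z w : E n, ∃ g : G,
      inner ℂ w (act U z - act (g : Matrix.unitaryGroup (Fin n) ℂ) z) = 0 := by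
    intro z w
    set c : ℂ := inner ℂ w (act U z) with hc
    have hF := hU (fun z => ev z (pol G w c)) ?_ ?_ z
    · rw [ev_pol, ev_pol] at hF
      have h0 : ∏ g : G, (c - inner ℂ w (act (g : Matrix.unitaryGroup (Fin n) ℂ) (act U z))) =
          0 := by
        refine Finset.prod_eq_zero (Finset.mem_univ (1 : G)) ?_
        rw [← act_mul]
        simp [hc]
      rw [h0] at hF
      obtain ⟨g, _, hg⟩ := Finset.prod_eq_zero_iff.1 hF.symm
      refine ⟨g, ?_⟩
      rw [inner_sub_right]
      exact hg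
    · refine Submodule.subset_span ⟨pol G w c, 1, pol_degree G w c, ?_, fun z => ?_⟩
      · rw [totalDegree_one]; exact Nat.zero_le _
      · simp [ev]
    · intro h hh z
      rw [ev_pol, ev_pol]
      refine Fintype.prod_equiv (Equiv.mulRight (⟨h, hh⟩ : G)) _ _ fun g => ?_
      rw [← act_mul]
      rfl
  -- step 2
  have h2 : ∀ z : E n, ∃ g : G, act U z = act (g : Matrix.unitaryGroup (Fin n) ℂ) z := by
    intro z
    have hcov : ⋃ g : G,
        (((Submodule.span ℂ {act U z - act (g : Matrix.unitaryGroup (Fin n) ℂ) z})ᗮ :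
          Submodule ℂ (E n)) : Set (E n)) = Set.univ := by
      refine Set.eq_univ_of_forall fun w => ?_
      obtain ⟨g, hg⟩ := h1 z w
      refine Set.mem_iUnion.2 ⟨g, ?_⟩
      rw [SetLike.mem_coe, Submodule.mem_orthogonal_singleton_iff_inner_left]
      exact hg
    obtain ⟨g, hg⟩ := Subspace.exists_eq_top_of_iUnion_eq_univ hcov
    refine ⟨g, ?_⟩
    have : act U z - act (g : Matrix.unitaryGroup (Fin n) ℂ) z ∈
        ((Submodule.span ℂ {act U z - act (g : Matrix.unitaryGroup (Fin n) ℂ) z})ᗮ :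
          Submodule ℂ (E n)) := by rw [hg]; trivial
    rw [Submodule.mem_orthogonal_singleton_iff_inner_left, inner_self_eq_zero, sub_eq_zero] at this
    exact this
  -- step 3
  have hcov : ⋃ g : G, ((LinearMap.ker (Matrix.mulVecLin
      ((U : Matrix (Fin n) (Fin n) ℂ) - ((g : Matrix.unitaryGroup (Fin n) ℂ) :
        Matrix (Fin n) (Fin n) ℂ))) : Submodule ℂ (Fin n → ℂ)) : Set (Fin n → ℂ)) =
      Set.univ := by
    refine Set.eq_univ_of_forall fun z => ?_
    obtain ⟨g, hg⟩ := h2 (WithLp.toLp 2 z)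
    refine Set.mem_iUnion.2 ⟨g, ?_⟩
    rw [SetLike.mem_coe, LinearMap.mem_ker, Matrix.mulVecLin_apply, Matrix.sub_mulVec,
      sub_eq_zero]
    have h3 := congrArg (fun y : E n => (fun i => y i)) hg
    exact h3
  obtain ⟨g, hg⟩ := Subspace.exists_eq_top_of_iUnion_eq_univ hcov
  have h4 : (U : Matrix (Fin n) (Fin n) ℂ) - ((g : Matrix.unitaryGroup (Fin n) ℂ) :
        Matrix (Fin n) (Fin n) ℂ) = 0 := by
    rw [LinearMap.ker_eq_top] at hg
    refine Matrix.mulVec_injective (funext fun v => ?_)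
    have h6 := LinearMap.congr_fun hg v
    rw [Matrix.mulVecLin_apply] at h6
    rw [h6, Matrix.zero_mulVec]
    rfl
  have h5 : U = (g : Matrix.unitaryGroup (Fin n) ℂ) := Subtype.ext (sub_eq_zero.1 h4)
  rw [h5]
  exact g.2

end Pool.Agent.H4.RSM
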